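import Pool.Agent.Lib.MP_a768d2_coP.Poly3

/-!
# Minimum distance versus smallest angle: dense subsets of polycrystals
-/

open Pool.Agent.Lib.MP_a768d2_co in
/-- Let `n` points of the unit square have pairwise distances `> ε/√n`.

Suppose that for a positive proportion `κ` of the points the following holds for one of `K` lattices of covolume about
`1/n`: in the `(2U+1) × (2U+1)` patch of the lattice, translated so as to be centred at this point, a proportion `θ` of the
sites carry a point of the configuration up to an error `C/n`. Then, if `U` is large in terms of `c, ε, κ, C, K, θ`, and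
`n` is large, the smallest angle is less than `c/n`.

All the constants are arbitrary positive numbers; in particular `κ`, `θ` may be small and `C` large in terms of `c`. -/
theorem Pool.Agent.Results.MP_a768d2_co.DensePolycrystal.result :
    ∀ (c ε κ C θ : ℝ) (K : ℕ), 0 < c → 0 < ε → 0 < κ → 0 < C → 0 < θ →
      ∃ U N : ℕ, ∀ n : ℕ, N ≤ n → ∀ x : Fin n → ℂ,
        (∀ i, 0 ≤ (x i).re ∧ (x i).re ≤ 1 ∧ 0 ≤ (x i).im ∧ (x i).im ≤ 1) →
        (∀ i j, i ≠ j → ε / Real.sqrt (n : ℝ) < dist (x i) (x j)) →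
        ∀ a b : Fin K → ℂ,
          (∀ τ, ‖a τ‖ ≤ C / Real.sqrt n ∧ ‖b τ‖ ≤ C / Real.sqrt n ∧
            1 / (C * n) ≤ |(a τ).re * (b τ).im - (a τ).im * (b τ).re|) →
          κ * n ≤ (Nat.card {i : Fin n // ∃ τ : Fin K, θ * (2 * U + 1) ^ 2 ≤
            (Nat.card {s : ℤ × ℤ // |s.1| ≤ U ∧ |s.2| ≤ U ∧
              ∃ j, dist (x j) (x i + s.1 * a τ + s.2 * b τ) ≤ C / n} : ℝ)} : ℝ) →
          ∃ i j k : Fin n, i ≠ j ∧ j ≠ k ∧ i ≠ k ∧
            EuclideanGeometry.angle (x i) (x j) (x k) < c / n := by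
  classical
  intro c ε κ C θ K hc hε hκ hC hθ
  obtain ⟨U, N, h⟩ := polycrystal3 c ε κ C θ K hc hε hκ hC hθ
  refine ⟨U, N, fun n hn x h1 h2 a b hab hcard => h n hn x h1 h2 a b hab ?_⟩
  have h3 : (Nat.card {i : Fin n // ∃ τ : Fin K, θ * (2 * U + 1) ^ 2 ≤
            (Nat.card {s : ℤ × ℤ // |s.1| ≤ U ∧ |s.2| ≤ U ∧
              ∃ j, dist (x j) (x i + s.1 * a τ + s.2 * b τ) ≤ C / n} : ℝ)}) =
      (patched3 n K x a b U (C / n) θ).card := by
    apply Nat.subtype_card
    intro i
    unfold patched3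
    rw [Finset.mem_filter]
    simp
  rw [h3] at hcard
  exact hcard
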