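import Pool.Agent.Lib.MP_a768d2_coR.RgG

/-!
# Minimum distance versus smallest angle: perturbed grids, with rates
-/

open Pool.Agent.Lib.MP_a768d2_co.RG in
/-- Perturbed grids.  Let `x` be `n` points of the plane, `a, b` two vectors of size at most `C s` whose
determinant is at least `s²/C`, and suppose that the points `x (g i j)`, `0 ≤ i, j ≤ N`, are the lattice points
`i a + j b` up to a displacement whose values at `(i, j)` and `(i', j')` differ by at most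
`(Γ (|i - i'| + |j - j'|) / N + δ) s` (Lipschitz with constant `Γ` plus noise `δ`).
Then some angle is at most `C' Γ / (K N²)` for every `K ≥ 1` with `C' Γ K⁴ (δ + Γ K / N) ≤ 1`, where `C'`
depends on `C` only. -/
theorem Pool.Agent.Results.MP_a768d2_co.RoughGrid.result :
    ∀ C : ℝ, 1 ≤ C → ∃ C' : ℝ, 0 < C' ∧ ∀ (n : ℕ) (x : Fin n → ℂ) (s : ℝ) (a b : ℂ) (Γ δ : ℝ) (N K : ℕ)
      (g : ℕ → ℕ → Fin n), 0 < s → ‖a‖ ≤ C * s → ‖b‖ ≤ C * s →
      s ^ 2 ≤ C * |a.re * b.im - a.im * b.re| → 1 ≤ Γ → 0 ≤ δ → 1 ≤ N → 1 ≤ K →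
      (∀ i j i' j', i ≤ N → j ≤ N → i' ≤ N → j' ≤ N →
        ‖x (g i j) - x (g i' j') - (((i : ℝ) - i' : ℝ) * a + ((j : ℝ) - j' : ℝ) * b)‖ ≤
          (Γ * (|(i : ℝ) - i'| + |(j : ℝ) - j'|) / N + δ) * s) →
      C' * Γ * K ^ 4 * (δ + Γ * K / N) ≤ 1 →
      ∃ i j k : Fin n, i ≠ j ∧ j ≠ k ∧ i ≠ k ∧
        EuclideanGeometry.angle (x i) (x j) (x k) ≤ C' * Γ / (K * N ^ 2) := by
  intro C hC
  have hC0 : 0 < C := by linarith
  refine ⟨10 ^ 7 * C ^ 10, by positivity, ?_⟩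
  intro n x s a b Γ δ N K g hs ha hb hdet hΓ hδ hN hK hdf hsmall
  exact final1 C hC n x s a b Γ δ N K g hs ha hb hdet hΓ hδ hN hK hdf hsmall
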