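import Pool.Agent.Lib.MP_a768d2_coT.SlM
import Pool.Agent.Lib.MP_a768d2_coD.Web

/-!
# Minimum distance versus smallest angle: slowly varying lattices
-/

/-- Slowly varying lattices.  For all `C ≥ 1` and `c > 0` there are `ε > 0` and `N₀` such that the following holds.
Let `x` be `n` points of the plane, `s > 0`, `N ≥ N₀`, and let the points `x (g i j)`, `0 ≤ i, j ≤ N`, form an array
in which all steps `x (g (i + 1) j) - x (g i j)` and `x (g i (j + 1)) - x (g i j)` have length at most `C s`, the
determinant of the two steps at a point is at least `s² / C` in absolute value, and neighbouring steps differ by at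
most `ε s`.  Then some angle determined by the points is less than `c / N²`.

The hypothesis is purely local: the shape, the orientation and the size of the cell of the array may change
completely over macroscopic (even over large bounded) distances, and nothing is assumed about the other points. -/
theorem Pool.Agent.Results.MP_a768d2_co.SlowGrid.result (C : ℝ) (hC : 1 ≤ C) (c : ℝ) (hc : 0 < c) :
    ∃ ε : ℝ, 0 < ε ∧ ∃ N₀ : ℕ, ∀ (n : ℕ) (x : Fin n → ℂ) (s : ℝ) (N : ℕ) (g : ℕ → ℕ → Fin n), N₀ ≤ N → 0 < s →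
      (∀ i j, i < N → j ≤ N → ‖x (g (i + 1) j) - x (g i j)‖ ≤ C * s) →
      (∀ i j, i ≤ N → j < N → ‖x (g i (j + 1)) - x (g i j)‖ ≤ C * s) →
      (∀ i j, i < N → j < N → s ^ 2 / C ≤
        |(x (g (i + 1) j) - x (g i j)).re * (x (g i (j + 1)) - x (g i j)).im -
          (x (g (i + 1) j) - x (g i j)).im * (x (g i (j + 1)) - x (g i j)).re|) →
      (∀ i j, i + 1 < N → j ≤ N →
        ‖(x (g (i + 2) j) - x (g (i + 1) j)) - (x (g (i + 1) j) - x (g i j))‖ ≤ ε * s) →
      (∀ i j, i ≤ N → j + 1 < N →
        ‖(x (g i (j + 2)) - x (g i (j + 1))) - (x (g i (j + 1)) - x (g i j))‖ ≤ ε * s) →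
      (∀ i j, i < N → j < N →
        ‖(x (g (i + 1) (j + 1)) - x (g i (j + 1))) - (x (g (i + 1) j) - x (g i j))‖ ≤ ε * s) →
      ∃ i j k : Fin n, i ≠ j ∧ j ≠ k ∧ i ≠ k ∧
        EuclideanGeometry.angle (x i) (x j) (x k) < c / N ^ 2 :=
  Pool.Agent.Lib.MP_a768d2_co.SL.slow_main
    (Pool.Agent.Lib.MP_a768d2_co.SL.webFalse_of fun L hL => Pool.Agent.Lib.MP_a768d2_coT.webD L hL) C hC c hc
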