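import Pool.Agent.Lib.MP_a768d2_coS.Core

/-!
# Minimum distance versus smallest angle: thin triples in arbitrary separated sets
-/

namespace Pool.Agent.Results.MP_a768d2_co.ThinStrips

noncomputable section

open Pool.Agent.Lib.MP_a768d2_coS

/-- twice the signed area of a triangle in the complex plane -/
private def cr (a b c : ℂ) : ℝ := (b.re - a.re) * (c.im - a.im) - (b.im - a.im) * (c.re - a.re)

private theorem sin_angle_eq (u v : ℂ) :
    Real.sin (InnerProductGeometry.angle u v) * (‖u‖ * ‖v‖) = |u.re * v.im - u.im * v.re| := by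
  rw [InnerProductGeometry.sin_angle_mul_norm_mul_norm]
  have h1 : ∀ a b : ℂ, inner ℝ a b = a.re * b.re + a.im * b.im := by
    intro a b
    rw [Complex.inner]
    simp [Complex.mul_re]
    ring
  rw [h1, h1, h1, ← Real.sqrt_sq_eq_abs]
  ring_nf

/-- the area of a triangle from the angle at one end of its longest side -/
private theorem area_ge (a b c : ℂ) (t : ℝ) (hbc : b ≠ c) (h1 : dist a c ≤ dist a b)
    (h : t ≤ dist a b * EuclideanGeometry.angle a b c) : t / 2 * dist c b ≤ |cr b a c| := by
  unfold EuclideanGeometry.angle at h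
  set u := a -ᵥ b with hu
  set v := c -ᵥ b with hv
  have hu1 : ‖u‖ = dist a b := by rw [hu, dist_eq_norm]; rfl
  have hv1 : ‖v‖ = dist c b := by rw [hv, dist_eq_norm]; rfl
  have huv : ‖u - v‖ = dist a c := by
    rw [dist_eq_norm, hu, hv]
    simp
  have hv0 : 0 < ‖v‖ := by
    rw [hv1]
    exact dist_pos.2 (Ne.symm hbc)
  have hin : 0 ≤ inner ℝ u v := by
    have h2 := norm_sub_sq_real u v
    rw [huv, hu1] at h2
    have h3 : dist a c ^ 2 ≤ dist a b ^ 2 := pow_le_pow_left₀ dist_nonneg h1 2
    nlinarith [sq_nonneg ‖v‖]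
  set θ := InnerProductGeometry.angle u v with hθ
  have hθ0 : 0 ≤ θ := InnerProductGeometry.angle_nonneg u v
  have hθ1 : θ ≤ Real.pi / 2 := by
    rw [hθ, InnerProductGeometry.angle, Real.arccos_le_pi_div_two]
    positivity
  have hsin : 2 / Real.pi * θ ≤ Real.sin θ := Real.mul_le_sin hθ0 hθ1
  have h4 := sin_angle_eq u v
  rw [← hθ, hu1, hv1] at h4
  have h5 : |u.re * v.im - u.im * v.re| = |cr b a c| := by
    unfold cr
    simp [hu, hv]
  rw [← h5, ← h4]
  have hpi : Real.pi ≤ 4 := Real.pi_le_four
  have hpi0 : 0 < Real.pi := Real.pi_pos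
  have h6 : θ / 2 ≤ Real.sin θ := by
    refine le_trans ?_ hsin
    rw [div_mul_eq_mul_div, div_le_div_iff₀ (by norm_num) hpi0]
    nlinarith
  have h7 : 0 ≤ dist a b * dist c b := by positivity
  calc t / 2 * dist c b ≤ (dist a b * θ) / 2 * dist c b :=
        mul_le_mul_of_nonneg_right (by linarith) dist_nonneg
    _ = θ / 2 * (dist a b * dist c b) := by ring
    _ ≤ Real.sin θ * (dist a b * dist c b) := mul_le_mul_of_nonneg_right h6 h7

private theorem area_long (a b c : ℂ) (t : ℝ) (ht : 0 ≤ t) (hbc : b ≠ c) (hac : a ≠ c)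
    (h1 : dist a c ≤ dist a b) (h2 : dist b c ≤ dist a b)
    (h : t ≤ dist a b * EuclideanGeometry.angle a b c) (h' : t ≤ dist b a * EuclideanGeometry.angle b a c) :
    t / 4 * dist a b ≤ |cr a b c| := by
  have e1 := area_ge a b c t hbc h1 h
  have e2 := area_ge b a c t hac (by rw [dist_comm b a]; exact h2) h'
  have h3 : cr b a c = - cr a b c := by
    unfold cr
    ring
  rw [h3, abs_neg] at e1
  have h4 : dist a b ≤ dist c a + dist c b := by
    rw [dist_comm c a]
    exact dist_triangle a c b
  nlinarith [mul_nonneg ht (dist_nonneg (x := a) (y := b))]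

private theorem area_any (a b c : ℂ) (t : ℝ) (ht : 0 ≤ t) (hab : a ≠ b) (hbc : b ≠ c) (hac : a ≠ c)
    (h1 : dist a c ≤ dist a b → dist b c ≤ dist a b → t ≤ dist a b * EuclideanGeometry.angle a b c)
    (h1' : dist b c ≤ dist b a → dist a c ≤ dist b a → t ≤ dist b a * EuclideanGeometry.angle b a c)
    (h2 : dist a b ≤ dist a c → dist c b ≤ dist a c → t ≤ dist a c * EuclideanGeometry.angle a c b)
    (h2' : dist c b ≤ dist c a → dist a b ≤ dist c a → t ≤ dist c a * EuclideanGeometry.angle c a b)
    (h3 : dist b a ≤ dist b c → dist c a ≤ dist b c → t ≤ dist b c * EuclideanGeometry.angle b c a)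
    (h3' : dist c a ≤ dist c b → dist b a ≤ dist c b → t ≤ dist c b * EuclideanGeometry.angle c b a) :
    t / 4 * dist a c ≤ |cr a b c| := by
  have hab' := dist_comm a b
  have hbc' := dist_comm b c
  have hac' := dist_comm a c
  rcases le_total (dist a c) (dist a b) with hA | hA
  · rcases le_total (dist b c) (dist a b) with hB | hB
    · have h := area_long a b c t ht hbc hac hA hB (h1 hA hB) (h1' (by linarith) (by linarith))
      nlinarith
    · have h := area_long b c a t ht (Ne.symm hac) (Ne.symm hab) (by linarith) (by linarith)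
        (h3 (by linarith) (by linarith)) (h3' (by linarith) (by linarith))
      have h4 : cr b c a = cr a b c := by
        unfold cr
        ring
      rw [h4] at h
      nlinarith
  · rcases le_total (dist b c) (dist a c) with hB | hB
    · have h := area_long a c b t ht (Ne.symm hbc) hab hA (by linarith) (h2 hA (by linarith))
        (h2' (by linarith) (by linarith))
      have h4 : cr a c b = - cr a b c := by
        unfold cr
        ring
      rwa [h4, abs_neg] at h
    · have h := area_long b c a t ht (Ne.symm hac) (Ne.symm hab) (by linarith) (by linarith)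
        (h3 (by linarith) (by linarith)) (h3' (by linarith) (by linarith))
      have h4 : cr b c a = cr a b c := by
        unfold cr
        ring
      rw [h4] at h
      nlinarith

/-- For every `ε > 0` there is `C` such that for `n ≥ 3` any `n` points of the unit square at mutual distances
`> ε / √n` contain three distinct points `x i, x j, x k`, the longest of the three distances being `|x i - x j|`,
such that `|x i - x j|` times the angle at `x j` is at most `C / (n (log n) ^ (1 / 16))`. -/
theorem result : ∀ ε : ℝ, 0 < ε → ∃ C : ℝ, 0 < C ∧ ∀ n : ℕ, 3 ≤ n → ∀ x : Fin n → ℂ,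
    (∀ i, 0 ≤ (x i).re ∧ (x i).re ≤ 1 ∧ 0 ≤ (x i).im ∧ (x i).im ≤ 1) →
    (∀ i j, i ≠ j → ε / Real.sqrt (n : ℝ) < dist (x i) (x j)) →
    ∃ i j k : Fin n, i ≠ j ∧ j ≠ k ∧ i ≠ k ∧ dist (x i) (x k) ≤ dist (x i) (x j) ∧
      dist (x j) (x k) ≤ dist (x i) (x j) ∧
        dist (x i) (x j) * EuclideanGeometry.angle (x i) (x j) (x k) ≤
          C / ((n : ℝ) * Real.log n ^ ((1 : ℝ) / 16)) := by
  intro ε hε
  obtain ⟨B, hB, hcore⟩ := core (ε / 2) (by positivity)
  have hB10 : 1 ≤ (10 * B) ^ ((1 : ℝ) / 16) := Real.one_le_rpow (by linarith) (by norm_num)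
  have hexp : 1 ≤ Real.exp (10 * B) := Real.one_le_exp (by linarith)
  refine ⟨8 * Real.exp (10 * B) * (10 * B) ^ ((1 : ℝ) / 16), by positivity, ?_⟩
  intro n hn3 x hx hd
  by_contra hcon
  push Not at hcon
  have hn3' : (3 : ℝ) ≤ n := by exact_mod_cast hn3
  have hn0 : (0 : ℝ) < n := by linarith
  have hlog1 : 1 ≤ Real.log n := by
    rw [Real.le_log_iff_exp_le hn0]
    have := Real.exp_one_lt_d9
    linarith
  have hlog0 : 0 < Real.log n := by linarith
  have hlp0 : 0 < Real.log n ^ ((1 : ℝ) / 16) := Real.rpow_pos_of_pos hlog0 _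
  have hdist : ∀ i j, dist (x i) (x j) ≤ 2 := by
    intro i j
    obtain ⟨a1, a2, a3, a4⟩ := hx i
    obtain ⟨b1, b2, b3, b4⟩ := hx j
    rw [dist_eq_norm]
    refine (Complex.norm_le_abs_re_add_abs_im _).trans ?_
    have h1 : |(x i - x j).re| ≤ 1 := by
      rw [Complex.sub_re, abs_le]
      constructor <;> linarith
    have h2 : |(x i - x j).im| ≤ 1 := by
      rw [Complex.sub_im, abs_le]
      constructor <;> linarith
    linarith
  rcases lt_or_ge (Real.log n) (10 * B) with hsmall | hlarge
  · -- few points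
    have hn1 : (n : ℝ) ≤ Real.exp (10 * B) := by
      rw [← Real.exp_log hn0]
      exact Real.exp_le_exp.2 hsmall.le
    have h1 : (8 : ℝ) ≤ 8 * Real.exp (10 * B) * (10 * B) ^ ((1 : ℝ) / 16) /
        ((n : ℝ) * Real.log n ^ ((1 : ℝ) / 16)) := by
      rw [le_div_iff₀ (by positivity)]
      have h2 : Real.log n ^ ((1 : ℝ) / 16) ≤ (10 * B) ^ ((1 : ℝ) / 16) :=
        Real.rpow_le_rpow hlog0.le hsmall.le (by norm_num)
      calc 8 * ((n : ℝ) * Real.log n ^ ((1 : ℝ) / 16)) ≤ 8 * (Real.exp (10 * B) * (10 * B) ^ ((1 : ℝ) / 16)) :=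
            mul_le_mul_of_nonneg_left (mul_le_mul hn1 h2 hlp0.le (Real.exp_pos _).le) (by norm_num)
        _ = _ := by ring
    have key : ∀ i j k : Fin n, i ≠ j → j ≠ k → i ≠ k → dist (x i) (x k) ≤ dist (x i) (x j) →
        dist (x j) (x k) ≤ dist (x i) (x j) → False := by
      intro i j k h1' h2' h3' h4' h5'
      have h2 := hcon i j k h1' h2' h3' h4' h5'
      have h3 : EuclideanGeometry.angle (x i) (x j) (x k) ≤ 4 :=
        (EuclideanGeometry.angle_le_pi _ _ _).trans Real.pi_le_four
      have h4 : dist (x i) (x j) * EuclideanGeometry.angle (x i) (x j) (x k) ≤ 2 * 4 :=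
        mul_le_mul (hdist i j) h3 (EuclideanGeometry.angle_nonneg _ _ _) (by norm_num)
      linarith
    obtain ⟨i, j, k, hij, hjk, hik⟩ : ∃ i j k : Fin n, i ≠ j ∧ j ≠ k ∧ i ≠ k := by
      refine ⟨⟨0, by omega⟩, ⟨1, by omega⟩, ⟨2, by omega⟩, ?_, ?_, ?_⟩ <;> simp
    have s1 := dist_comm (x i) (x j)
    have s2 := dist_comm (x j) (x k)
    have s3 := dist_comm (x i) (x k)
    rcases le_total (dist (x i) (x k)) (dist (x i) (x j)) with hA | hA
    · rcases le_total (dist (x j) (x k)) (dist (x i) (x j)) with hB' | hB'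
      · exact key i j k hij hjk hik hA hB'
      · exact key j k i hjk hik.symm hij.symm (by linarith) (by linarith)
    · rcases le_total (dist (x j) (x k)) (dist (x i) (x k)) with hB' | hB'
      · exact key i k j hik hjk.symm hij hA (by linarith)
      · exact key j k i hjk hik.symm hij.symm (by linarith) (by linarith)
  · -- many points
    set c := (10 * B / Real.log n) ^ ((1 : ℝ) / 16) with hc
    have hq0 : 0 < 10 * B / Real.log n := by positivity
    have hc0 : 0 < c := Real.rpow_pos_of_pos hq0 _
    have hc1 : c ≤ 1 := Real.rpow_le_one hq0.le (by rw [div_le_one hlog0]; exact hlarge) (by norm_num)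
    have hc16 : c ^ 16 = 10 * B / Real.log n := by
      rw [hc, ← Real.rpow_natCast, ← Real.rpow_mul hq0.le]
      norm_num
    set v := Real.exp (B / c ^ 16) with hv
    have hv0 : 0 < v := Real.exp_pos _
    have hv10 : v ^ 10 = n := by
      rw [hv, hc16, ← Real.exp_nat_mul]
      have h1 : ((10 : ℕ) : ℝ) * (B / (10 * B / Real.log n)) = Real.log n := by
        push_cast
        field_simp
      rw [h1, Real.exp_log hn0]
    have hv5 : v ^ 5 = Real.sqrt n := by
      rw [← hv10, show v ^ 10 = (v ^ 5) ^ 2 by ring, Real.sqrt_sq (by positivity)]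
    set N := v ^ 5 with hN
    have hNpos : 0 < N := by positivity
    have hN2 : N ^ 2 = n := by rw [hN, ← hv10]; ring
    rw [← hv5] at hd
    set f : Fin n → ℝ × ℝ := fun i => (N * (x i).re, N * (x i).im) with hf
    have hsep : ∀ i j, i ≠ j → ε / 2 ≤ dist (f i) (f j) := by
      intro i j hij
      have h1 := hd i j hij
      rw [div_lt_iff₀ hNpos] at h1
      have h2 : dist (x i) (x j) ≤ |(x i).re - (x j).re| + |(x i).im - (x j).im| := by
        rw [dist_eq_norm]
        refine (Complex.norm_le_abs_re_add_abs_im _).trans ?_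
        simp
      have h3 : dist (f i) (f j) = max (N * |(x i).re - (x j).re|) (N * |(x i).im - (x j).im|) := by
        rw [hf, Prod.dist_eq, Real.dist_eq, Real.dist_eq]
        simp only
        rw [← mul_sub, ← mul_sub, abs_mul, abs_mul, abs_of_pos hNpos]
      rw [h3]
      have h4 := le_max_left (N * |(x i).re - (x j).re|) (N * |(x i).im - (x j).im|)
      have h5 := le_max_right (N * |(x i).re - (x j).re|) (N * |(x i).im - (x j).im|)
      nlinarith
    have hinj : Function.Injective f := by
      intro i j h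
      by_contra hij
      have h1 := hsep i j hij
      rw [h, dist_self] at h1
      linarith
    have hP1 : Pool.Agent.Lib.MP_a768d2_coS.Sep (ε / 2) (Finset.univ.image f) := by
      intro p hp q hq hpq
      obtain ⟨i, -, rfl⟩ := Finset.mem_image.1 hp
      obtain ⟨j, -, rfl⟩ := Finset.mem_image.1 hq
      exact hsep i j fun h => hpq (by rw [h])
    have hP2 : InBox N (Finset.univ.image f) := by
      intro p hp
      obtain ⟨i, -, rfl⟩ := Finset.mem_image.1 hp
      obtain ⟨h1, h2, h3, h4⟩ := hx i
      simp only [hf]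
      refine ⟨by positivity, ?_, by positivity, ?_⟩
      · nlinarith
      · nlinarith
    have hP3 : N ^ 2 ≤ ((Finset.univ.image f).card : ℝ) := by
      rw [Finset.card_image_of_injective _ hinj, Finset.card_univ, Fintype.card_fin, hN2]
    refine hcore c v hc0 hc1 le_rfl (Finset.univ.image f) hP1 hP2 hP3 ?_
    intro p hp q hq z hz hpq hqz hpz
    obtain ⟨i, -, rfl⟩ := Finset.mem_image.1 hp
    obtain ⟨j, -, rfl⟩ := Finset.mem_image.1 hq
    obtain ⟨k, -, rfl⟩ := Finset.mem_image.1 hz
    have hij : i ≠ j := fun h => hpq (by rw [h])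
    have hjk : j ≠ k := fun h => hqz (by rw [h])
    have hik : i ≠ k := fun h => hpz (by rw [h])
    have hne : ∀ a b : Fin n, a ≠ b → x a ≠ x b := by
      intro a b hab h
      have h1 := hd a b hab
      rw [h, dist_self] at h1
      have : 0 < ε / N := by positivity
      linarith
    have hcon' : ∀ i j k : Fin n, i ≠ j → j ≠ k → i ≠ k → dist (x i) (x k) ≤ dist (x i) (x j) →
        dist (x j) (x k) ≤ dist (x i) (x j) →
          4 * c / n ≤ dist (x i) (x j) * EuclideanGeometry.angle (x i) (x j) (x k) := by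
      intro i j k h1 h2 h3 h4 h5
      refine le_trans ?_ (hcon i j k h1 h2 h3 h4 h5).le
      rw [div_le_div_iff₀ hn0 (by positivity)]
      have h6 : c * Real.log n ^ ((1 : ℝ) / 16) = (10 * B) ^ ((1 : ℝ) / 16) := by
        rw [hc, ← Real.mul_rpow hq0.le hlog0.le, div_mul_cancel₀ _ hlog0.ne']
      calc 4 * c * ((n : ℝ) * Real.log n ^ ((1 : ℝ) / 16)) = 4 * (c * Real.log n ^ ((1 : ℝ) / 16)) * n := by ring
        _ = 4 * (10 * B) ^ ((1 : ℝ) / 16) * n := by rw [h6]
        _ ≤ 8 * Real.exp (10 * B) * (10 * B) ^ ((1 : ℝ) / 16) * n := by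
            refine mul_le_mul_of_nonneg_right ?_ hn0.le
            refine mul_le_mul_of_nonneg_right ?_ (by positivity)
            linarith
    have harea := area_any (x i) (x j) (x k) (4 * c / n) (by positivity) (hne i j hij) (hne j k hjk) (hne i k hik)
      (hcon' i j k hij hjk hik) (hcon' j i k hij.symm hik hjk) (hcon' i k j hik hjk.symm hij)
      (hcon' k i j hik.symm hij hjk.symm) (hcon' j k i hjk hik.symm hij.symm) (hcon' k j i hjk.symm hij.symm hik.symm)
    have h1 : dt (f i) (f j) (f k) = n * cr (x i) (x j) (x k) := by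
      rw [← hN2]
      unfold dt cr
      simp only [hf]
      ring
    have h2 : |(f k).1 - (f i).1| = N * |(x k).re - (x i).re| := by
      simp only [hf]
      rw [← mul_sub, abs_mul, abs_of_pos hNpos]
    have h3 : |(x k).re - (x i).re| ≤ dist (x i) (x k) := by
      rw [dist_comm, dist_eq_norm]
      have := Complex.abs_re_le_norm (x k - x i)
      simpa using this
    rw [h1, h2, abs_mul, abs_of_pos hn0]
    calc c / N * (N * |(x k).re - (x i).re|) = c * |(x k).re - (x i).re| := by
          field_simp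
      _ ≤ c * dist (x i) (x k) := mul_le_mul_of_nonneg_left h3 (by positivity)
      _ = n * (4 * c / n / 4 * dist (x i) (x k)) := by
          field_simp
      _ ≤ n * |cr (x i) (x j) (x k)| := mul_le_mul_of_nonneg_left harea hn0.le

end

end Pool.Agent.Results.MP_a768d2_co.ThinStrips
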